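import Pool.Agent.K6.H99.MS.Vanish

/-!
# Morphisms to the cohomology of an open subset
-/

set_option autoImplicit false
set_option linter.unusedSectionVars false

open CategoryTheory Limits MonoidalCategory Pretriangulated Triangulated ZeroObject
open scoped Polynomial

namespace Pool.Agent.K6.H99.MS

open Pool.Agent.Y116.MT Pool.Agent.T6helper6.MT Pool.Agent.K6.H99.EC

universe v u v' u' w

section

variable {D : Type u} [Category.{v} D] [Preadditive D] [HasZeroObject D] [HasShift D ℤ]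
  [∀ n : ℤ, (shiftFunctor D n).Additive] [Pretriangulated D] [MonoidalCategory D]
  [SymmetricCategory D] [TensorTriangulated D] [MonoidalPreadditive D] [Linear ℚ D]
  {φ : ∀ X : D, X ⟶ X} {q : ℕ} {S : D → Prop}

theorem vanish_piece (hq : IsPrimePow q) (hφ : IsTensorNatural φ) (hS : IsConstantClass φ q S)
    {X Y A : D} (hX : S X) (hY : S Y) (hA : Piece φ q S A) (j : ℤ) (hj : j < 0)
    (f : X ⟶ (Y ⊗ A)⟦j⟧) : f = 0 := by
  rcases hA with hA | ⟨P, W, hP, hW, i, r, hir⟩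
  · exact hS.negative hX (hS.tensor hY hA) j hj f
  · have h1 : f ≫ (Y ◁ i)⟦j⟧' ≫ ((α_ Y P W).inv)⟦j⟧' = 0 :=
      vanish hq hφ (hS.elliptic hX) (hS.elliptic (hS.tensor hY hP)) hW j _
    have h2 : f = (f ≫ (Y ◁ i)⟦j⟧' ≫ ((α_ Y P W).inv)⟦j⟧') ≫ ((α_ Y P W).hom)⟦j⟧' ≫
        (Y ◁ r)⟦j⟧' := by
      simp only [Category.assoc, ← Functor.map_comp, Iso.inv_hom_id_assoc]
      rw [← MonoidalCategory.whiskerLeft_comp, hir, MonoidalCategory.whiskerLeft_id,
        CategoryTheory.Functor.map_id, Category.comp_id]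
    rw [h2, h1, zero_comp]

theorem vanish_built (hq : IsPrimePow q) (hφ : IsTensorNatural φ) (hS : IsConstantClass φ q S)
    {X Y B : D} (hX : S X) (hY : S Y) (hB : Built (Piece φ q S) B) :
    ∀ (n : ℤ), n ≤ 0 → ∀ f : X ⟶ (Y ⊗ B)⟦n⟧, f = 0 := by
  induction hB with
  | zero hZ =>
    intro n _ f
    exact ((shiftFunctor D n).map_isZero ((tensorLeft Y).map_isZero hZ)).eq_of_tgt _ _
  | @piece A i hi hA =>
    intro n hn f
    have h1 := vanish_piece hq hφ hS hX hY hA (-i + n) (by omega)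
      (f ≫ (rShift Y A (-i)).hom⟦n⟧' ≫ ((shiftFunctorAdd D (-i) n).app (Y ⊗ A)).inv)
    rw [← cancel_mono ((rShift Y A (-i)).hom⟦n⟧' ≫ ((shiftFunctorAdd D (-i) n).app (Y ⊗ A)).inv),
      h1, zero_comp]
  | @extension X' Y' Z' a b c hT h1 h2 ih1 ih2 =>
    intro n hn f
    have hT' := Triangle.shift_distinguished _ ((tensorLeft Y).map_distinguished _ hT) n
    obtain ⟨g, hg⟩ := Triangle.coyoneda_exact₂ _ hT' f (ih2 n hn _)
    rw [hg, ih1 n hn g]
    exact zero_comp

end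

end Pool.Agent.K6.H99.MS
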