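import Pool.Agent.T6helper6.MT.Final
import Pool.Agent.K6.H99.EC.Defs

/-!
# Constant motives over the function field of a variety over a finite field: definitions
-/

set_option autoImplicit false

open CategoryTheory Limits MonoidalCategory Pretriangulated Triangulated ZeroObject
open scoped Polynomial

namespace Pool.Agent.K6.H99.MS

open Pool.Agent.Y116.MT Pool.Agent.T6helper6.MT Pool.Agent.K6.H99.EC

universe v u v' u' w

/-- The complex number `y` is an eigenvalue of Frobenius on the first cohomology group of an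
elliptic curve over the field with `Q` elements. -/
def Ell (Q : ℕ) (y : ℂ) : Prop := ∃ t : ℤ, IsElliptic Q t ∧ y ^ 2 + Q = t * y

section

variable {D : Type u} [Category.{v} D] [Preadditive D] [HasZeroObject D] [HasShift D ℤ]
  [∀ n : ℤ, (shiftFunctor D n).Additive] [Pretriangulated D]

/-- The objects which are successive extensions of objects `A⟦-i⟧` with `A` in `𝒜` and `i > 0`. -/
inductive Built (𝒜 : D → Prop) : D → Prop
  | zero {X : D} : IsZero X → Built 𝒜 X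
  | piece {A : D} (i : ℤ) : 0 < i → 𝒜 A → Built 𝒜 (A⟦-i⟧)
  | extension {X Y Z : D} {f : X ⟶ Y} {g : Y ⟶ Z} {h : Z ⟶ X⟦(1 : ℤ)⟧} :
      Triangle.mk f g h ∈ distTriang D → Built 𝒜 X → Built 𝒜 Z → Built 𝒜 Y

/-- For all sufficiently divisible `N` the `N`-th power of the Frobenius endomorphism of `X`, the
Frobenius for the field with `q ^ N` elements, is annihilated by a polynomial whose zeros are, up to
powers of `q ^ N`, products of eigenvalues of Frobenius of elliptic curves over this field. -/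
def EllipticType [Linear ℚ D] (φ : ∀ X : D, X ⟶ X) (q : ℕ) (X : D) : Prop :=
  ∃ N₀ : ℕ, 0 < N₀ ∧ ∀ N : ℕ, 0 < N → N₀ ∣ N → ∃ χ : ℚ[X],
    Polynomial.aeval ((End.of (φ X)) ^ N) χ = 0 ∧ ∀ β : ℂ, Polynomial.aeval β χ = 0 →
      ∃ (ys : List ℂ) (c : ℤ), (∀ y ∈ ys, Ell (q ^ N) y) ∧ β = ys.prod * ((q ^ N : ℕ) : ℂ) ^ c

/-- The powers of the Frobenius endomorphism of `W` are annihilated by monic polynomials with integral
coefficients whose zeros are `q ^ N`-Weil numbers which are different from the eigenvalues of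
Frobenius of elliptic curves over the field with `q ^ N` elements, even up to roots of unity. -/
def NonElliptic (φ : ∀ X : D, X ⟶ X) (q : ℕ) (W : D) : Prop :=
  ∀ N : ℕ, 0 < N → ∃ χ : ℤ[X], χ.Monic ∧ Polynomial.aeval ((End.of (φ W)) ^ N) χ = 0 ∧
    ∀ ω : ℂ, Polynomial.aeval ω χ = 0 → ‖ω‖ ^ 2 = (q : ℝ) ^ N ∧
      ∀ M : ℕ, 0 < M → ∀ y : ℂ, Ell (q ^ N) y → ω ^ M ≠ y ^ M

variable [MonoidalCategory D]

/-- `φ` is a natural family of endomorphisms compatible with shifts and tensor products. -/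
structure IsTensorNatural (φ : ∀ X : D, X ⟶ X) : Prop where
  natural {X Y : D} (f : X ⟶ Y) : f ≫ φ Y = φ X ≫ f
  shift (X : D) (n : ℤ) : φ (X⟦n⟧) = (φ X)⟦n⟧'
  tensor (X Y : D) : φ (X ⊗ Y) = φ X ⊗ₘ φ Y

/-- The class `𝒮` is closed under tensor products and direct summands, there are no morphisms of
negative degree between its members, for every morphism `f` between two members there is `g` with
`f g f = f`, and the members are of elliptic type. -/
structure IsConstantClass [Linear ℚ D] (φ : ∀ X : D, X ⟶ X) (q : ℕ) (𝒮 : D → Prop) : Prop where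
  tensor {X Y : D} : 𝒮 X → 𝒮 Y → 𝒮 (X ⊗ Y)
  retract {X Y : D} (i : Y ⟶ X) (r : X ⟶ Y) : i ≫ r = 𝟙 Y → 𝒮 X → 𝒮 Y
  negative {X Y : D} : 𝒮 X → 𝒮 Y → ∀ n : ℤ, n < 0 → ∀ f : X ⟶ Y⟦n⟧, f = 0
  regular {X Y : D} : 𝒮 X → 𝒮 Y → ∀ f : X ⟶ Y, ∃ g : Y ⟶ X, f ≫ g ≫ f = f
  elliptic {X : D} : 𝒮 X → EllipticType φ q X

/-- The members of `𝒮` and the direct summands of the objects `P ⊗ W` with `P` in `𝒮` and `W` not
elliptic. -/
def Piece (φ : ∀ X : D, X ⟶ X) (q : ℕ) (𝒮 : D → Prop) (A : D) : Prop :=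
  𝒮 A ∨ ∃ P W : D, 𝒮 P ∧ NonElliptic φ q W ∧ ∃ (i : A ⟶ P ⊗ W) (r : P ⊗ W ⟶ A), i ≫ r = 𝟙 A

end

section

variable {D : Type u} [Category.{v} D] [Preadditive D] [HasShift D ℤ] [MonoidalCategory D]
  {C : Type u'} [Category.{v'} C] [Preadditive C] [HasShift C ℤ]

/-- The morphisms of degree `n` between the objects `Φ P` and `Φ P'` of `C` come from the morphisms
`P ⟶ (P' ⊗ G U)⟦n⟧` by the maps `ρ`. These maps send zero to zero, and they send the
composition of a morphism `g : P ⟶ P'` and of the morphism `P' ⟶ P' ⊗ G U` given by the unit `η U` of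
`G U` to `Φ g`. -/
structure IsGeneric {𝒮 : ObjectProperty D} (Φ : 𝒮.FullSubcategory ⥤ C) {J : Type*} (G : J → D)
    (η : ∀ U, 𝟙_ D ⟶ G U)
    (ρ : ∀ (U : J) (P P' : 𝒮.FullSubcategory) (n : ℤ), (P.obj ⟶ (P'.obj ⊗ G U)⟦n⟧) →
      (Φ.obj P ⟶ (Φ.obj P')⟦n⟧)) : Prop where
  zero (U : J) (P P' : 𝒮.FullSubcategory) (n : ℤ) : ρ U P P' n 0 = 0
  surj (P P' : 𝒮.FullSubcategory) (n : ℤ) (f : Φ.obj P ⟶ (Φ.obj P')⟦n⟧) :
    ∃ (U : J) (g : P.obj ⟶ (P'.obj ⊗ G U)⟦n⟧), ρ U P P' n g = f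
  unit (U : J) (P P' : 𝒮.FullSubcategory) (g : P ⟶ P') :
    ρ U P P' 0 (g.hom ≫ (ρ_ P'.obj).inv ≫ (P'.obj ◁ η U) ≫
      (shiftFunctorZero D ℤ).inv.app (P'.obj ⊗ G U)) =
      Φ.map g ≫ (shiftFunctorZero C ℤ).inv.app (Φ.obj P')

end

section

variable {D : Type u} [Category.{v} D] [Preadditive D] [HasZeroObject D] [HasShift D ℤ]
  [∀ n : ℤ, (shiftFunctor D n).Additive] [Pretriangulated D] [MonoidalCategory D]

/-- `G` is an extension of an object built from pieces by the unit. -/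
def IsOpen (φ : ∀ X : D, X ⟶ X) (q : ℕ) (𝒮 : D → Prop) {G : D} (η : 𝟙_ D ⟶ G) : Prop :=
  ∃ (B : D) (b : G ⟶ B) (d : B ⟶ (𝟙_ D)⟦(1 : ℤ)⟧), Triangle.mk η b d ∈ distTriang D ∧
    Built (Piece φ q 𝒮) B

variable [Linear ℚ D]
  {C : Type u'} [Category.{v'} C] [Preadditive C] [HasZeroObject C] [HasShift C ℤ]
  [∀ n : ℤ, (shiftFunctor C n).Additive] [Pretriangulated C] [MonoidalCategory C]
  [SymmetricCategory C] [TensorTriangulated C]

/-- The category `C` is generated by the objects `Φ P`, `P` in the class `𝒮`, which have cohomology in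
degree zero only, where `Φ` is faithful even after the realisation `R l₀`; the morphisms between
these objects are determined by the objects `G U` of `D`. -/
structure IsConstantCategory (φ : ∀ X : D, X ⟶ X) (q : ℕ) {𝒮 : ObjectProperty D}
    (Φ : 𝒮.FullSubcategory ⥤ C) {J : Type*} (G : J → D) (η : ∀ U, 𝟙_ D ⟶ G U)
    (ρ : ∀ (U : J) (P P' : 𝒮.FullSubcategory) (n : ℤ), (P.obj ⟶ (P'.obj ⊗ G U)⟦n⟧) →
      (Φ.obj P ⟶ (Φ.obj P')⟦n⟧)) {Λ : Type*} {E : Λ → Type w} [∀ l, Field (E l)]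
    (R : ∀ l, Realisation C (E l)) (l₀ : Λ) : Prop where
  frobenius : IsTensorNatural φ
  constant : IsConstantClass φ q 𝒮
  isOpen (U : J) : IsOpen φ q 𝒮 (η U)
  generic : IsGeneric Φ G η ρ
  degree (P : 𝒮.FullSubcategory) (l : Λ) (i : ℤ) : i ≠ 0 → IsZero ((R l).H.obj ((Φ.obj P)⟦i⟧))
  faithful (P P' : 𝒮.FullSubcategory) (g : P ⟶ P') : (R l₀).H.map (Φ.map g) = 0 → g = 0
  generated (X : C) : Gen (fun Y => ∃ P : 𝒮.FullSubcategory, Nonempty (Y ≅ Φ.obj P)) X

end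

end Pool.Agent.K6.H99.MS
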