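import Mathlib

/-!
# Commuting algebraic elements of an algebra have a common eigenvalue
-/

set_option autoImplicit false

namespace Pool.Agent.K6.H99.MS

open Polynomial

theorem hom_field (F : Type*) [Field F] [Algebra ℚ F] [Algebra.IsIntegral ℚ F] :
    Nonempty (F →ₐ[ℚ] ℂ) := ⟨IsAlgClosed.lift⟩

theorem hom_ring (A : Type*) [CommRing A] [Algebra ℚ A] [Nontrivial A] [Algebra.IsIntegral ℚ A] :
    Nonempty (A →ₐ[ℚ] ℂ) := by
  obtain ⟨m, hm⟩ := Ideal.exists_maximal A
  let _ : Field (A ⧸ m) := Ideal.Quotient.field m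
  have h1 : Algebra.IsIntegral ℚ (A ⧸ m) := inferInstance
  obtain ⟨g⟩ := hom_field (A ⧸ m)
  exact ⟨g.comp (Ideal.Quotient.mkₐ ℚ m)⟩

theorem exists_hom {B : Type*} [Ring B] [Algebra ℚ B] [Nontrivial B] (a b : B)
    (hab : a * b = b * a) (ha : IsIntegral ℚ a) (hb : IsIntegral ℚ b) :
    ∃ β ω : ℂ, (∀ (p : ℚ[X]) (N : ℕ), aeval (a ^ N) p = 0 → aeval (β ^ N) p = 0) ∧
      (∀ (p : ℤ[X]) (N : ℕ), aeval (b ^ N) p = 0 → aeval (ω ^ N) p = 0) ∧
      ∀ (p : ℚ[X]) (N : ℕ), aeval ((a * b) ^ N) p = 0 → aeval ((β * ω) ^ N) p = 0 := by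
  let s : Set B := {a, b}
  have hcomm : ∀ x ∈ s, ∀ y ∈ s, x * y = y * x := by
    rintro x (rfl | rfl) y (rfl | rfl)
    · rfl
    · exact hab
    · exact hab.symm
    · rfl
  letI : CommRing (Algebra.adjoin ℚ s) :=
    { (Algebra.adjoin ℚ s).toRing with
      mul_comm := (Algebra.isMulCommutative_adjoin ℚ hcomm).is_comm.comm }
  let a' : Algebra.adjoin ℚ s := ⟨a, Algebra.subset_adjoin (by simp [s])⟩
  let b' : Algebra.adjoin ℚ s := ⟨b, Algebra.subset_adjoin (by simp [s])⟩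
  have hinj : Function.Injective (Algebra.adjoin ℚ s).val := Subtype.val_injective
  have hint : Algebra.IsIntegral ℚ (Algebra.adjoin ℚ s) := by
    constructor
    rintro ⟨x, hx⟩
    induction hx using Algebra.adjoin_induction with
    | mem x hx =>
      rcases hx with rfl | rfl
      · exact (isIntegral_algHom_iff (Algebra.adjoin ℚ s).val hinj).1 ha
      · exact (isIntegral_algHom_iff (Algebra.adjoin ℚ s).val hinj).1 hb
    | algebraMap r => exact isIntegral_algebraMap (R := ℚ) (A := Algebra.adjoin ℚ s) (x := r)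
    | add x y hx hy h1 h2 => exact h1.add h2
    | mul x y hx hy h1 h2 => exact h1.mul h2
  obtain ⟨ψ⟩ := hom_ring (Algebra.adjoin ℚ s)
  have key : ∀ (p : ℚ[X]) (x : Algebra.adjoin ℚ s), aeval (x : B) p = 0 → aeval (ψ x) p = 0 := by
    intro p x hx
    rw [aeval_algHom_apply]
    have h3 : aeval x p = 0 := by
      apply hinj
      rw [map_zero, ← aeval_algHom_apply]
      exact hx
    rw [h3, map_zero]
  refine ⟨ψ a', ψ b', fun p N hp => ?_, fun p N hp => ?_, fun p N hp => ?_⟩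
  · rw [← map_pow]
    exact key p (a' ^ N) hp
  · rw [← map_pow]
    have h3 := key (p.map (algebraMap ℤ ℚ)) (b' ^ N) (by
      rw [aeval_map_algebraMap]
      exact hp)
    rwa [aeval_map_algebraMap] at h3
  · rw [← map_mul, ← map_pow]
    exact key p ((a' * b') ^ N) hp

end Pool.Agent.K6.H99.MS
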