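import Pool.Agent.K6.H99.MS.Built
import Pool.Agent.T6helper6.SM.Main

/-!
# The motivic t-structure on constant motives
-/

set_option autoImplicit false
set_option linter.unusedSectionVars false

open CategoryTheory Limits MonoidalCategory Pretriangulated Triangulated ZeroObject
open scoped Polynomial

namespace Pool.Agent.K6.H99.MS

open Pool.Agent.Y116.MT Pool.Agent.T6helper6.MT Pool.Agent.T6helper6.SM Pool.Agent.K6.H99.EC

universe v u v' u' w

section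

variable {D : Type u} [Category.{v} D] [Preadditive D] [HasZeroObject D] [HasShift D ℤ]
  [∀ n : ℤ, (shiftFunctor D n).Additive] [Pretriangulated D] [MonoidalCategory D]
  [SymmetricCategory D] [TensorTriangulated D] [MonoidalPreadditive D] [Linear ℚ D]
  {φ : ∀ X : D, X ⟶ X} {q : ℕ} {S : ObjectProperty D} {ι : Type*} {G : ι → D}
  {η : ∀ U, 𝟙_ D ⟶ G U}
  {C : Type u'} [Category.{v'} C] [Preadditive C] [HasZeroObject C] [HasShift C ℤ]
  [∀ n : ℤ, (shiftFunctor C n).Additive] [Pretriangulated C] [MonoidalCategory C]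
  [SymmetricCategory C] [TensorTriangulated C]
  {Φ : S.FullSubcategory ⥤ C} [Φ.Additive]
  {ρ : ∀ (U : ι) (P P' : S.FullSubcategory) (n : ℤ), (P.obj ⟶ (P'.obj ⊗ G U)⟦n⟧) →
      (Φ.obj P ⟶ (Φ.obj P')⟦n⟧)}
  {Λ : Type*} {E : Λ → Type w} [∀ l, Field (E l)] [∀ l, CharZero (E l)]
  {R : ∀ l, Realisation C (E l)} {l₀ : Λ}

theorem from_open (hq : IsPrimePow q) (hφ : IsTensorNatural φ) (hS : IsConstantClass φ q S)
    {X Y G : D} {η : 𝟙_ D ⟶ G} (hX : S X) (hY : S Y) (hG : IsOpen φ q S η) (n : ℤ) :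
    (n < 0 → ∀ f : X ⟶ (Y ⊗ G)⟦n⟧, f = 0) ∧
      (∀ f : X ⟶ Y ⊗ G, ∃ g : X ⟶ Y, f = g ≫ (ρ_ Y).inv ≫ Y ◁ η) := by
  obtain ⟨B, b, d, hT, hB⟩ := hG
  have hT' := (tensorLeft Y).map_distinguished _ hT
  refine ⟨fun hn f => ?_, fun f => ?_⟩
  · obtain ⟨g, hg⟩ := Triangle.coyoneda_exact₂ _ (Triangle.shift_distinguished _ hT' n) f
      (vanish_built hq hφ hS hX hY hB n hn.le _)
    have h1 : g = 0 := by
      let e := (shiftFunctor D n).mapIso (ρ_ Y)
      have h2 : g ≫ e.hom = 0 := hS.negative hX hY n hn _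
      exact (cancel_mono e.hom).1 (h2.trans zero_comp.symm)
    rw [hg, h1]
    exact zero_comp
  · have h0 : f ≫ Y ◁ b = 0 := by
      have h1 := vanish_built hq hφ hS hX hY hB 0 le_rfl
        ((f ≫ Y ◁ b) ≫ (shiftFunctorZero D ℤ).inv.app (Y ⊗ B))
      rw [← cancel_mono ((shiftFunctorZero D ℤ).inv.app (Y ⊗ B)), h1, zero_comp]
    obtain ⟨g, hg⟩ := Triangle.coyoneda_exact₂ _ hT' f h0
    let g' : X ⟶ Y ⊗ 𝟙_ D := g
    refine ⟨g' ≫ (ρ_ Y).hom, ?_⟩
    rw [Category.assoc, Iso.hom_inv_id_assoc]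
    exact hg

/-- The class of constant objects. -/
theorem heart [IsIdempotentComplete D] (hq : IsPrimePow q) (hφ : IsTensorNatural φ)
    (hS : IsConstantClass φ q S) (hG : ∀ U, IsOpen φ q S (η U)) (hρ : IsGeneric Φ G η ρ)
    (hdeg : ∀ (P : S.FullSubcategory) (l : Λ) (i : ℤ), i ≠ 0 →
      IsZero ((R l).H.obj ((Φ.obj P)⟦i⟧)))
    (hfaith : ∀ (P P' : S.FullSubcategory) (g : P ⟶ P'), (R l₀).H.map (Φ.map g) = 0 → g = 0) :
    IsHeartClass R l₀ (fun X => ∃ P : S.FullSubcategory, Nonempty (X ≅ Φ.obj P)) := by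
  have hfull : ∀ (P P' : S.FullSubcategory) (f : Φ.obj P ⟶ Φ.obj P'), ∃ g : P ⟶ P', f = Φ.map g := by
    intro P P' f
    obtain ⟨U, g, hg⟩ := hρ.surj P P' 0 (f ≫ (shiftFunctorZero C ℤ).inv.app (Φ.obj P'))
    obtain ⟨g₀, hg₀⟩ := (from_open hq hφ hS P.property P'.property (hG U) 0).2
      (g ≫ (shiftFunctorZero D ℤ).hom.app _)
    refine ⟨ObjectProperty.homMk g₀, ?_⟩
    have h1 := hρ.unit U P P' (ObjectProperty.homMk g₀)
    have h2 : g = g₀ ≫ (ρ_ P'.obj).inv ≫ (P'.obj ◁ η U) ≫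
      (shiftFunctorZero D ℤ).inv.app (P'.obj ⊗ G U) := by
      have h3 : g = (g ≫ (shiftFunctorZero D ℤ).hom.app _) ≫
          (shiftFunctorZero D ℤ).inv.app (P'.obj ⊗ G U) := by
        rw [Category.assoc, Iso.hom_inv_id_app]
        exact (Category.comp_id g).symm
      rw [h3, hg₀]
      simp only [Category.assoc]
    have h4 : ρ U P P' 0 g = Φ.map (ObjectProperty.homMk g₀) ≫
        (shiftFunctorZero C ℤ).inv.app (Φ.obj P') := by
      rw [← h1, h2]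
      rfl
    rw [hg] at h4
    exact (cancel_mono _).1 h4
  have hfull' : ∀ {X Y : C} (P P' : S.FullSubcategory) (a : X ≅ Φ.obj P) (b : Y ≅ Φ.obj P')
      (f : X ⟶ Y), ∃ g : P ⟶ P', f = a.hom ≫ Φ.map g ≫ b.inv := by
    intro X Y P P' a b f
    obtain ⟨g, hg⟩ := hfull P P' (a.inv ≫ f ≫ b.hom)
    refine ⟨g, ?_⟩
    rw [← hg]
    simp
  refine ⟨?_, ?_, ?_, ?_, ?_⟩
  · -- retracts
    rintro X Y i r hir ⟨P, ⟨a⟩⟩
    obtain ⟨e, he⟩ := hfull P P (a.inv ≫ r ≫ i ≫ a.hom)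
    have he2 : e ≫ e = e := by
      have h1 : e ≫ e - e = 0 := by
        apply hfaith
        rw [Φ.map_sub, Φ.map_comp, ← he]
        have h2 : (a.inv ≫ r ≫ i ≫ a.hom) ≫ a.inv ≫ r ≫ i ≫ a.hom = a.inv ≫ r ≫ i ≫ a.hom := by
          simp only [Category.assoc, Iso.hom_inv_id_assoc]
          rw [reassoc_of% hir]
        rw [h2, sub_self]
        exact (R l₀).H.map_zero _ _
      exact sub_eq_zero.1 h1
    have he3 : e.hom ≫ e.hom = e.hom := congrArg (fun g => g.hom) he2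
    obtain ⟨Z, i', r', h1, h2⟩ := IsIdempotentComplete.idempotents_split P.obj e.hom he3
    have hZ : S Z := hS.retract i' r' h1 P.property
    let Z' : S.FullSubcategory := ⟨Z, hZ⟩
    let i'' : Z' ⟶ P := ObjectProperty.homMk i'
    let r'' : P ⟶ Z' := ObjectProperty.homMk r'
    have h3 : i'' ≫ r'' = 𝟙 Z' := ObjectProperty.hom_ext _ h1
    have h4 : r'' ≫ i'' = e := ObjectProperty.hom_ext _ h2
    refine ⟨Z', ⟨⟨i ≫ a.hom ≫ Φ.map r'', Φ.map i'' ≫ a.inv ≫ r, ?_, ?_⟩⟩⟩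
    · have h5 : (i ≫ a.hom ≫ Φ.map r'') ≫ Φ.map i'' ≫ a.inv ≫ r =
          i ≫ a.hom ≫ Φ.map e ≫ a.inv ≫ r := by
        rw [← h4, Φ.map_comp]
        simp only [Category.assoc]
      rw [h5, ← he]
      simp only [Category.assoc, Iso.hom_inv_id_assoc]
      rw [reassoc_of% hir, hir]
    · have h5 : (Φ.map i'' ≫ a.inv ≫ r) ≫ i ≫ a.hom ≫ Φ.map r'' =
          Φ.map i'' ≫ (a.inv ≫ r ≫ i ≫ a.hom) ≫ Φ.map r'' := by
        simp only [Category.assoc]
      rw [h5, he, ← h4, ← Φ.map_comp, ← Φ.map_comp]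
      have h6 : i'' ≫ (r'' ≫ i'') ≫ r'' = 𝟙 Z' := by
        rw [Category.assoc, h3, Category.comp_id, h3]
      rw [h6, Φ.map_id]
  · -- negative
    rintro X Y ⟨P, ⟨a⟩⟩ ⟨P', ⟨b⟩⟩ n hn f
    obtain ⟨U, g, hg⟩ := hρ.surj P P' n (a.inv ≫ f ≫ b.hom⟦n⟧')
    rw [(from_open hq hφ hS P.property P'.property (hG U) n).1 hn g, hρ.zero] at hg
    have h1 : f = a.hom ≫ (a.inv ≫ f ≫ b.hom⟦n⟧') ≫ b.inv⟦n⟧' := by
      simp only [Category.assoc, Iso.hom_inv_id_assoc, ← Functor.map_comp, Iso.hom_inv_id,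
        CategoryTheory.Functor.map_id, Category.comp_id]
    rw [h1, ← hg, zero_comp, comp_zero]
  · -- regular
    rintro X Y ⟨P, ⟨a⟩⟩ ⟨P', ⟨b⟩⟩ f
    obtain ⟨g, hg⟩ := hfull' P P' a b f
    obtain ⟨h, hh⟩ := hS.regular P.property P'.property g.hom
    let h' : P' ⟶ P := ObjectProperty.homMk h
    have hh' : g ≫ h' ≫ g = g := ObjectProperty.hom_ext _ hh
    refine ⟨b.hom ≫ Φ.map h' ≫ a.inv, ?_⟩
    rw [hg]
    simp only [Category.assoc, Iso.inv_hom_id_assoc]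
    rw [← Φ.map_comp_assoc, ← Φ.map_comp_assoc, Category.assoc, hh']
  · -- degree
    rintro X ⟨P, ⟨a⟩⟩ l i hi
    exact (hdeg P l i hi).of_iso ((R l).H.mapIso ((shiftFunctor C i).mapIso a))
  · -- conservative
    rintro X ⟨P, ⟨a⟩⟩ hX
    have h1 : IsZero ((R l₀).H.obj (Φ.obj P)) := hX.of_iso ((R l₀).H.mapIso a.symm)
    have h2 : 𝟙 P = 0 := hfaith P P (𝟙 P) (h1.eq_of_src _ _)
    have h3 : IsZero (Φ.obj P) := by
      rw [IsZero.iff_id_eq_zero, ← Φ.map_id, h2, Φ.map_zero]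
    exact h3.of_iso a

/-- The motivic t-structure on constant motives. -/
theorem exists_constant [IsIdempotentComplete D] [IsTriangulated C] [MonoidalPreadditive C]
    [RightRigidCategory C] [IsIdempotentComplete C] (hq : IsPrimePow q)
    (h : IsConstantCategory φ q Φ G η ρ R l₀) : ∃ t : TStructure C, IsMotivic t R :=
  exists_of_class (heart hq h.frobenius h.constant h.isOpen h.generic h.degree h.faithful)
    h.generated

end

end Pool.Agent.K6.H99.MS
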