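import Pool.Agent.K6.H99.MS.Defs
import Pool.Agent.K6.H99.EC.Pair
import Pool.Agent.K6.H99.AC.List

/-!
# Eigenvalues of Frobenius which are products of those of elliptic curves
-/

set_option autoImplicit false
set_option linter.unusedSectionVars false

namespace Pool.Agent.K6.H99.MS

open Polynomial Pool.Agent.W484.AA Pool.Agent.W484.HS Pool.Agent.W484.BB Pool.Agent.K6.H99.AC
  Pool.Agent.K6.H99.EC

/-- The relation of length one. -/
theorem exists_single {X : Type*} {K : Type*} [Field K] (val : X → K) {Q ρ : K} (hQ : Q ≠ 0)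
    (hpair : OddPairK val Q ρ) : ∀ (n : ℕ) (c : ℤ) (L : List X), L.length = n →
      (L.map val).prod * ρ = Q ^ c → ∃ y ∈ L, val y * ρ = Q := by
  intro n
  induction n using Nat.strong_induction_on with
  | _ n ih =>
    intro c L hlen hrel
    obtain ⟨h3, h4⟩ := hpair n c L hlen hrel
    by_cases hn : n = 1
    · subst hn
      obtain ⟨e, rfl⟩ := List.length_eq_one_iff.1 hlen
      have hc : c = 1 := by push_cast at h3; omega
      subst hc
      simp only [List.map_cons, List.map_nil, List.prod_singleton, zpow_one] at hrel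
      exact ⟨e, by simp, hrel⟩
    · obtain ⟨e, e', L', hperm, hgood⟩ := exists_of_not_pairwise _ L (h4 hn)
      rw [not_not] at hgood
      have hlen' : n = L'.length + 2 := by
        have h2 := hperm.length_eq
        rw [List.length_cons, List.length_cons, hlen] at h2
        omega
      have h6 : (L.map val).prod = Q * (L'.map val).prod := by
        rw [(hperm.map val).prod_eq, List.map_cons, List.prod_cons,
          List.map_cons, List.prod_cons, ← mul_assoc, hgood]
      obtain ⟨y, hy, h7⟩ := ih L'.length (by omega) (c - 1) L' rfl (by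
        have h8 : Q ^ c = Q * Q ^ (c - 1) := by
          rw [← zpow_one_add₀ hQ]
          congr 1
          ring
        rw [h6, h8, mul_assoc] at hrel
        exact mul_left_cancel₀ hQ hrel)
      exact ⟨y, hperm.mem_iff.2 (List.mem_cons_of_mem _ (List.mem_cons_of_mem _ hy)), h7⟩

theorem Ell.ne {Q : ℕ} (hQ : Q ≠ 0) {y : ℂ} (h : Ell Q y) : y ≠ 0 := by
  obtain ⟨t, -, h⟩ := h
  rintro rfl
  have : (Q : ℂ) = 0 := by linear_combination h
  exact hQ (by exact_mod_cast this)

theorem Ell.conj {Q : ℕ} (hQ : Q ≠ 0) {y : ℂ} (h : Ell Q y) : Ell Q (Q / y) := by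
  have h0 := h.ne hQ
  obtain ⟨t, ht, h⟩ := h
  refine ⟨t, ht, ?_⟩
  have h1 : (Q : ℂ) / y = t - y := by
    rw [div_eq_iff h0]
    linear_combination h
  rw [h1]
  linear_combination h

/-- A quotient of two products of eigenvalues of Frobenius of elliptic curves which is an eigenvalue of
Frobenius of an abelian variety is up to a root of unity the one of an elliptic curve. -/
theorem relation {Q : ℕ} (hQ : IsPrimePow Q) {ys zs : List ℂ} (hys : ∀ y ∈ ys, Ell Q y)
    (hzs : ∀ z ∈ zs, Ell Q z) {c d : ℤ} {ω : ℂ} {χ : ℤ[X]} (hχ : χ.Monic)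
    (hχn : ∀ ρ : ℂ, aeval ρ χ = 0 → ‖ρ‖ ^ 2 = (Q : ℝ) ^ 24) (hω : aeval (ω ^ 24) χ = 0)
    (hrel : ys.prod * (Q : ℂ) ^ c = zs.prod * (Q : ℂ) ^ d * ω) :
    ∃ y : ℂ, Ell Q y ∧ ω ^ 24 = y ^ 24 := by
  have hQ0 : Q ≠ 0 := hQ.ne_zero
  have hQC : (Q : ℂ) ≠ 0 := by exact_mod_cast hQ0
  have hodd := oddPair_field (K := ℂ) hQ 24 (by norm_num) dvd_rfl χ hχ hχn (ω ^ 24) hω
  have hinv : (ys.map fun y => (Q : ℂ) / y).prod * ys.prod = (Q : ℂ) ^ ys.length := by
    clear hrel
    induction ys with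
    | nil => simp
    | cons y ys ih =>
      rw [List.map_cons, List.prod_cons, List.prod_cons, List.length_cons, pow_succ,
        ← ih fun y' hy' => hys y' (List.mem_cons_of_mem _ hy')]
      have h1 : y ≠ 0 := (hys y (by simp)).ne hQ0
      field_simp
  have hroot : ∀ y, Ell Q y → ∃ t, aeval y (ellipticPoly Q t) = 0 := by
    rintro y ⟨t, ht, h⟩
    exact ⟨⟨t, ht⟩, (aeval_ellipticPoly Q _ y).2 h⟩
  have hlift : ∀ l : List ℂ, (∀ y ∈ l, Ell Q y) → ∃ L : List (Root ℂ Q),
      L.map (fun y : Root ℂ Q => y.1) = l := by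
    intro l hl
    induction l with
    | nil => exact ⟨[], rfl⟩
    | cons y l ih =>
      obtain ⟨L, hL⟩ := ih fun y' hy' => hl y' (List.mem_cons_of_mem _ hy')
      exact ⟨⟨y, hroot y (hl y (by simp))⟩ :: L, by rw [List.map_cons, hL]⟩
  obtain ⟨L, hL⟩ := hlift ((ys.map fun y => (Q : ℂ) / y) ++ zs) (by
    intro y hy
    rcases List.mem_append.1 hy with h | h
    · obtain ⟨y', hy', rfl⟩ := List.mem_map.1 h
      exact (hys y' hy').conj hQ0
    · exact hzs y h)
  have hprod : (L.map fun y : Root ℂ Q => (y : ℂ) ^ 24).prod =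
      ((ys.map fun y => (Q : ℂ) / y).prod * zs.prod) ^ 24 := by
    rw [← List.prod_append, ← hL]
    clear hL
    induction L with
    | nil => simp
    | cons y L ih => rw [List.map_cons, List.prod_cons, List.map_cons, List.prod_cons, ih, mul_pow]
  obtain ⟨y, -, hy⟩ := exists_single (fun y : Root ℂ Q => (y : ℂ) ^ 24) (pow_ne_zero 24 hQC) hodd
    L.length (ys.length + c - d) L rfl (by
      rw [hprod, ← mul_pow]
      have h1 : (ys.map fun y => (Q : ℂ) / y).prod * zs.prod * ω =
          (Q : ℂ) ^ ((ys.length : ℤ) + c - d) := by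
        have h2 : ys.prod * ((ys.map fun y => (Q : ℂ) / y).prod * zs.prod * ω) * (Q : ℂ) ^ d =
            ys.prod * ((Q : ℂ) ^ ((ys.length : ℤ) + c - d)) * (Q : ℂ) ^ d := by
          have h3 : ((Q : ℂ) ^ ((ys.length : ℤ) + c - d)) * (Q : ℂ) ^ d =
              (Q : ℂ) ^ ys.length * (Q : ℂ) ^ c := by
            rw [← zpow_add₀ hQC, sub_add_cancel, zpow_add₀ hQC, zpow_natCast]
          rw [mul_assoc ys.prod ((Q : ℂ) ^ ((ys.length : ℤ) + c - d)), h3, ← hinv]
          linear_combination (-(ys.map fun y => (Q : ℂ) / y).prod * ys.prod) * hrel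
        have h4 : ys.prod ≠ 0 := by
          rw [Ne, List.prod_eq_zero_iff]
          intro h5
          exact (hys 0 h5).ne hQ0 rfl
        exact mul_left_cancel₀ h4 (mul_right_cancel₀ (zpow_ne_zero d hQC) h2)
      rw [h1, ← zpow_natCast, ← zpow_natCast, ← zpow_mul, ← zpow_mul, mul_comm])
  obtain ⟨y, t, ht⟩ := y
  have hy' : Ell Q y := ⟨t.1, t.2, (aeval_ellipticPoly Q t y).1 ht⟩
  refine ⟨(Q : ℂ) / y, hy'.conj hQ0, ?_⟩
  have h0 := hy'.ne hQ0
  dsimp only at hy
  rw [div_pow, eq_div_iff (pow_ne_zero _ h0)]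
  linear_combination hy

end Pool.Agent.K6.H99.MS
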