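import Pool.Agent.K6.H99.MS.Defs
import Pool.Agent.K6.H99.MS.Rel
import Pool.Agent.K6.H99.MS.Hom

/-!
# The product of an object of elliptic type and a non-elliptic object has no cohomology
-/

set_option autoImplicit false
set_option linter.unusedSectionVars false

open CategoryTheory Limits MonoidalCategory Pretriangulated Triangulated ZeroObject
open scoped Polynomial

namespace Pool.Agent.K6.H99.MS

open Pool.Agent.Y116.MT Pool.Agent.T6helper6.MT Pool.Agent.K6.H99.EC

universe v u v' u' w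

section

variable {D : Type u} [Category.{v} D] [Preadditive D] [Linear ℚ D]

/-- Composition with the images of endomorphisms under an additive functor. -/
noncomputable def post {X : D} (T : D ⥤ D) [T.Additive] (P : D) :
    End P →+* Module.End ℚ (X ⟶ T.obj P) where
  toFun u :=
    { toFun := fun f => f ≫ T.map u
      map_add' := fun f g => by rw [Preadditive.add_comp]
      map_smul' := fun c f => by simp }
  map_one' := by
    ext f
    change f ≫ T.map (𝟙 P) = f
    rw [T.map_id, Category.comp_id]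
  map_mul' u v := by
    ext f
    change f ≫ T.map (v ≫ u) = (f ≫ T.map v) ≫ T.map u
    rw [T.map_comp, Category.assoc]
  map_zero' := by
    ext f
    change f ≫ T.map 0 = 0
    rw [T.map_zero, comp_zero]
  map_add' u v := by
    ext f
    change f ≫ T.map (u + v) = f ≫ T.map u + f ≫ T.map v
    rw [T.map_add, Preadditive.comp_add]

lemma post_apply {X : D} (T : D ⥤ D) [T.Additive] (P : D) (u : End P) (f : X ⟶ T.obj P) :
    post T P u f = f ≫ T.map u := rfl

end

section

variable {D : Type u} [Category.{v} D] [Preadditive D] [HasZeroObject D] [HasShift D ℤ]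
  [∀ n : ℤ, (shiftFunctor D n).Additive] [Pretriangulated D] [MonoidalCategory D]
  [MonoidalPreadditive D] [Linear ℚ D] {φ : ∀ X : D, X ⟶ X} {q : ℕ}

instance right_additive (W : D) (j : ℤ) : (tensorRight W ⋙ shiftFunctor D j).Additive where
  map_add {X Y f g} := by simp

instance left_additive (P : D) (j : ℤ) : (tensorLeft P ⋙ shiftFunctor D j).Additive where
  map_add {X Y f g} := by simp

/-- There are no morphisms between `X` and a shift of `P ⊗ W` for `X`, `P` of elliptic type, `W` not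
elliptic. -/
theorem vanish (hq : IsPrimePow q) (hφ : IsTensorNatural φ) {X P W : D} (hX : EllipticType φ q X)
    (hP : EllipticType φ q P) (hW : NonElliptic φ q W) (j : ℤ) (f : X ⟶ (P ⊗ W)⟦j⟧) : f = 0 := by
  by_contra hf
  let M := X ⟶ (P ⊗ W)⟦j⟧
  have : Nontrivial (Module.End ℚ M) := by
    refine ⟨1, 0, fun h => hf ?_⟩
    have := LinearMap.congr_fun h f
    exact this
  let F : End P →+* Module.End ℚ M := post (tensorRight W ⋙ shiftFunctor D j) P
  let G : End W →+* Module.End ℚ M := post (tensorLeft P ⋙ shiftFunctor D j) W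
  let a := F (End.of (φ P))
  let b := G (End.of (φ W))
  have ha : ∀ f : M, a f = f ≫ ((φ P) ▷ W)⟦j⟧' := fun f => rfl
  have hb : ∀ f : M, b f = f ≫ (P ◁ (φ W))⟦j⟧' := fun f => rfl
  have hab : a * b = b * a := by
    ext f
    change a (b f) = b (a f)
    rw [ha, hb, ha, hb, Category.assoc, Category.assoc, ← Functor.map_comp, ← Functor.map_comp,
      whisker_exchange]
  have hprod : ∀ f : M, (a * b) f = φ X ≫ f := by
    intro f
    change a (b f) = _
    rw [ha, hb, Category.assoc, ← Functor.map_comp, whisker_exchange, ← MonoidalCategory.tensorHom_def,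
      ← hφ.tensor, ← hφ.shift, hφ.natural]
  have hpow : ∀ (n : ℕ) (f : M), ((a * b) ^ n) f = ((End.of (φ X)) ^ n : End X) ≫ f := by
    intro n
    induction n with
    | zero =>
      intro f
      rw [pow_zero, pow_zero]
      exact (Category.id_comp f).symm
    | succ n ih =>
      intro f
      rw [pow_succ, pow_succ']
      change ((a * b) ^ n) ((a * b) f) = (((End.of (φ X)) ^ n : End X) ≫ φ X) ≫ f
      rw [hprod, ih, Category.assoc]
  have haev : ∀ (χ : ℚ[X]) (N : ℕ) (f : M), (Polynomial.aeval ((a * b) ^ N) χ) f =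
      (Polynomial.aeval ((End.of (φ X)) ^ N) χ : End X) ≫ f := by
    intro χ N f
    rw [Polynomial.aeval_eq_sum_range, Polynomial.aeval_eq_sum_range, LinearMap.sum_apply]
    have h1 : ∀ (s : Finset ℕ) (g : ℕ → End X), (∑ i ∈ s, g i : End X) ≫ f = ∑ i ∈ s, g i ≫ f :=
      fun s g => Preadditive.sum_comp s g f
    rw [h1]
    refine Finset.sum_congr rfl fun i _ => ?_
    rw [LinearMap.smul_apply, ← pow_mul, ← pow_mul, hpow]
    exact (Linear.smul_comp _ _ _ _ _ _).symm
  obtain ⟨N₁, hN₁, hX⟩ := hX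
  obtain ⟨N₂, hN₂, hP⟩ := hP
  have hN : 0 < N₁ * N₂ := Nat.mul_pos hN₁ hN₂
  obtain ⟨χX, hX1, hX2⟩ := hX (N₁ * N₂) hN (dvd_mul_right _ _)
  obtain ⟨χP, hP1, hP2⟩ := hP (N₁ * N₂) hN (dvd_mul_left _ _)
  obtain ⟨χW, hW1, hW2, hW3⟩ := hW (N₁ * N₂) hN
  obtain ⟨χ', hW1', hW2', hW3'⟩ := hW (N₁ * N₂ * 24) (by positivity)
  have haP : Polynomial.aeval (a ^ (N₁ * N₂)) χP = 0 := by
    have h1 := Polynomial.aeval_algHom_apply F.toRatAlgHom ((End.of (φ P)) ^ (N₁ * N₂)) χP
    rw [hP1, map_zero, map_pow] at h1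
    exact h1
  have hbW : ∀ (N : ℕ) (χ : ℤ[X]), Polynomial.aeval ((End.of (φ W)) ^ N) χ = 0 →
      Polynomial.aeval (b ^ N) χ = 0 := by
    intro N χ h
    rw [Polynomial.aeval_def] at h ⊢
    have h1 := Polynomial.hom_eval₂ χ (algebraMap ℤ (End W)) G ((End.of (φ W)) ^ N)
    rw [h, map_zero, map_pow, RingHom.ext_int (G.comp (algebraMap ℤ (End W)))
      (algebraMap ℤ (Module.End ℚ M))] at h1
    exact h1.symm
  have hXab : Polynomial.aeval ((a * b) ^ (N₁ * N₂)) χX = 0 := by
    ext f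
    rw [haev, hX1]
    exact zero_comp
  have hχP : χP ≠ 0 := by
    rintro rfl
    obtain ⟨ys, c, h1, h2⟩ := hP2 0 (by simp)
    have h3 : ys.prod * ((q ^ (N₁ * N₂) : ℕ) : ℂ) ^ c ≠ 0 := by
      refine mul_ne_zero ?_ (zpow_ne_zero _ ?_)
      · rw [Ne, List.prod_eq_zero_iff]
        intro h5
        exact (h1 0 h5).ne (pow_ne_zero _ hq.ne_zero) rfl
      · exact_mod_cast pow_ne_zero _ hq.ne_zero
    exact h3 h2.symm
  have ha' : IsIntegral ℚ a := by
    have h1 : IsAlgebraic ℚ (a ^ (N₁ * N₂)) := ⟨χP, hχP, haP⟩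
    exact IsIntegral.of_pow hN (isAlgebraic_iff_isIntegral.1 h1)
  have hb' : IsIntegral ℚ b := by
    have h1 : IsIntegral ℤ (b ^ (N₁ * N₂)) := ⟨χW, hW1, hbW _ _ hW2⟩
    exact (IsIntegral.of_pow hN h1).tower_top
  obtain ⟨β, ω, h1, h2, h3⟩ := exists_hom a b hab ha' hb'
  obtain ⟨zs, d, hzs, hβ⟩ := hP2 _ (h1 _ _ haP)
  obtain ⟨ys, c, hys, hlam⟩ := hX2 _ (h3 _ _ hXab)
  have hω := hW3 _ (h2 _ _ (hbW _ _ hW2))
  have hω' := h2 _ _ (hbW _ _ hW2')
  obtain ⟨y, hy, hy'⟩ := relation (hq.pow (by positivity)) hys hzs (c := c) (d := d)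
    (ω := ω ^ (N₁ * N₂)) hW1' (fun ρ hρ => by
      rw [(hW3' ρ hρ).1]
      push_cast
      rw [← pow_mul]) (by rw [← pow_mul]; exact hω') (by
      rw [← hlam, ← hβ, mul_pow])
  exact hω.2 24 (by norm_num) y hy hy'

end

end Pool.Agent.K6.H99.MS
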